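import Mathlib
import Pool.Agent.Lib.MP_9317e9_co.Basic

set_option autoImplicit false

universe u

namespace Pool.Agent.Lib.MP_9317e9_co.P4

open Pool.Agent.Lib.MP_9317e9_co

variable {V : Type u}

/-- the reversed digraph -/
def rv (G : Digraph V) : Digraph V := ⟨fun a b => G.Adj b a⟩

/-- `x` is covered by `S` (from above) or by `T` (from below) -/
def Cov (G : Digraph V) (S T : Set V) (x : V) : Prop :=
  (x ∈ S ∨ ∃ s ∈ S, G.Adj s x) ∨ (x ∈ T ∨ ∃ t ∈ T, G.Adj x t)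

/-- configurations inside `Z` -/
structure Cfg (G : Digraph V) (Z A S B T : Set V) : Prop where
  AS : A ⊆ S
  SZ : S ⊆ Z
  BT : B ⊆ T
  TZ : T ⊆ Z
  disj : ∀ x ∈ S, x ∉ T
  indA : Indep G A
  indB : Indep G B
  domA : ∀ s ∈ S, s ∈ A ∨ ∃ a ∈ A, G.Adj a s
  domB : ∀ t ∈ T, t ∈ B ∨ ∃ b ∈ B, G.Adj t b
  covA : ∀ x ∈ Z, ∀ a ∈ A, G.Adj x a → Cov G S T x
  covB : ∀ x ∈ Z, ∀ b ∈ B, G.Adj b x → Cov G S T x

/-- a configuration which is nonempty on both sides or covers everything -/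
def Good (G : Digraph V) (Z : Set V) : Prop :=
  ∃ A S B T, Cfg G Z A S B T ∧ (B.Nonempty ∨ ∀ x ∈ Z, Cov G S T x) ∧
    (A.Nonempty ∨ ∀ x ∈ Z, Cov G S T x)

lemma cov_rv {G : Digraph V} {S T : Set V} {x : V} (h : Cov G S T x) : Cov (rv G) T S x :=
  h.symm

lemma cov_mono {G : Digraph V} {S T S' T' : Set V} {x : V} (hS : S ⊆ S') (hT : T ⊆ T')
    (h : Cov G S T x) : Cov G S' T' x := by
  rcases h with (h | ⟨s, hs, h⟩) | (h | ⟨t, ht, h⟩)
  · exact Or.inl (Or.inl (hS h))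
  · exact Or.inl (Or.inr ⟨s, hS hs, h⟩)
  · exact Or.inr (Or.inl (hT h))
  · exact Or.inr (Or.inr ⟨t, hT ht, h⟩)

lemma Cfg.reverse {G : Digraph V} {Z A S B T : Set V} (h : Cfg G Z A S B T) :
    Cfg (rv G) Z B T A S where
  AS := h.BT
  SZ := h.TZ
  BT := h.AS
  TZ := h.SZ
  disj := fun x hx hx' => h.disj x hx' hx
  indA := fun a ha b hb hab => h.indB b hb a ha hab
  indB := fun a ha b hb hab => h.indA b hb a ha hab
  domA := h.domB
  domB := h.domA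
  covA := fun x hx b hb hab => cov_rv (h.covB x hx b hb hab)
  covB := fun x hx a ha hab => cov_rv (h.covA x hx a ha hab)

lemma good_rv {G : Digraph V} {Z : Set V} (h : Good G Z) : Good (rv G) Z := by
  obtain ⟨A, S, B, T, hc, h1, h2⟩ := h
  exact ⟨B, T, A, S, hc.reverse, h2.imp id fun h x hx => cov_rv (h x hx),
    h1.imp id fun h x hx => cov_rv (h x hx)⟩

/-- Every induced path on four vertices inside `Y` contains no directed path with two arcs. -/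
def PathCond (G : Digraph V) (Y : Set V) : Prop :=
  ∀ x ∈ Y, ∀ y ∈ Y, ∀ z ∈ Y, ∀ w ∈ Y,
    ((G.Adj x y ∧ G.Adj y z) ∨ (G.Adj z y ∧ G.Adj y x)) → (G.Adj z w ∨ G.Adj w z) →
    (G.Adj x z ∨ G.Adj z x) ∨ (G.Adj x w ∨ G.Adj w x) ∨ (G.Adj y w ∨ G.Adj w y)

lemma pathCond_rv {G : Digraph V} {Y : Set V} (h : PathCond G Y) : PathCond (rv G) Y := by
  intro x hx y hy z hz w hw h1 h2
  have := h x hx y hy z hz w hw (by
    rcases h1 with ⟨h1, h1'⟩ | ⟨h1, h1'⟩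
    · exact Or.inr ⟨h1', h1⟩
    · exact Or.inl ⟨h1', h1⟩) h2.symm
  rcases this with h | h | h
  · exact Or.inl h.symm
  · exact Or.inr (Or.inl h.symm)
  · exact Or.inr (Or.inr h.symm)

lemma pathCond_mono {G : Digraph V} {Y Y' : Set V} (hY : Y' ⊆ Y) (h : PathCond G Y) :
    PathCond G Y' :=
  fun x hx y hy z hz w hw => h x (hY hx) y (hY hy) z (hY hz) w (hY hw)

/-- one step of the descent -/
structure Step (G : Digraph V) (Z : Set V) (a : V) (Q Y : Set V) : Prop where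
  aZ : a ∈ Z
  QZ : Q ⊆ Z
  YZ : Y ⊆ Z
  Qne : Q.Nonempty
  indQ : Indep G Q
  aQ : ∀ q ∈ Q, G.Adj a q
  inA : ∀ u ∈ Z, G.Adj u a → ∃ q ∈ Q, G.Adj u q
  QY : ∀ q ∈ Q, ∀ y ∈ Y, G.Adj q y
  YQ : ∀ y ∈ Y, y ∉ Q ∧ ∀ q ∈ Q, ¬ G.Adj y q
  aY : ∀ y ∈ Y, y ≠ a ∧ ¬ G.Adj y a ∧ ¬ G.Adj a y
  bd : ∀ z ∈ Z, ∀ y ∈ Y, (G.Adj z y ∨ G.Adj y z) →
    z ∈ Y ∨ z ∈ Q ∨ (∃ q ∈ Q, G.Adj z q) ∨ z = a ∨ G.Adj a z
  outQ : ∀ z ∈ Z, ∀ q ∈ Q, G.Adj q z →
    z ∈ Y ∨ z ∈ Q ∨ (∃ q ∈ Q, G.Adj z q) ∨ z = a ∨ G.Adj a z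

lemma exists_step {G : Digraph V} (hG : ∀ v, ¬ G.Adj v v) {Z : Set V} (hP : PathCond G Z)
    (hZ : ¬ Good G Z) : ∃ a Q Y, Step G Z a Q Y := by
  obtain ⟨M, -, hMZ, hMi, hmax⟩ := exists_maxIndep (G := G) (U := Z) (K := ∅)
    (by simp [Indep]) (Set.empty_subset _)
  have hnb : ∀ v ∈ Z, v ∉ M → ∃ m ∈ M, G.Adj v m ∨ G.Adj m v := by
    intro v hv hvM
    by_contra hno
    push Not at hno
    apply hvM
    apply hmax v hv
    rintro x (rfl | hx) y (rfl | hy) hxy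
    · exact hG _ hxy
    · exact (hno y hy).1 hxy
    · exact (hno x hx).2 hxy
    · exact hMi x hx y hy hxy
  -- there is a vertex not reached
  obtain ⟨a, haZ, haM, ha1, ha2⟩ : ∃ a ∈ Z, a ∉ M ∧ (∀ m ∈ M, ¬ G.Adj m a) ∧
      ∀ m ∈ M, ∀ u ∈ Z, G.Adj m u → ¬ G.Adj u a := by
    by_contra hno
    apply hZ
    have hS : ∀ x ∈ Z, Cov G {x | x ∈ Z ∧ (x ∈ M ∨ ∃ m ∈ M, G.Adj m x)} ∅ x := by
      intro x hx
      by_cases h1 : x ∈ M
      · exact Or.inl (Or.inl ⟨hx, Or.inl h1⟩)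
      by_cases h2 : ∀ m ∈ M, ¬ G.Adj m x
      · have h3 : ¬ ∀ m ∈ M, ∀ u ∈ Z, G.Adj m u → ¬ G.Adj u x :=
          fun h3 => hno ⟨x, hx, h1, h2, h3⟩
        push Not at h3
        obtain ⟨m, hm, u, hu, hmu, hux⟩ := h3
        exact Or.inl (Or.inr ⟨u, ⟨hu, Or.inr ⟨m, hm, hmu⟩⟩, hux⟩)
      · push Not at h2
        obtain ⟨m, hm, hmx⟩ := h2
        exact Or.inl (Or.inl ⟨hx, Or.inr ⟨m, hm, hmx⟩⟩)
    refine ⟨M, {x | x ∈ Z ∧ (x ∈ M ∨ ∃ m ∈ M, G.Adj m x)}, ∅, ∅, ?_, Or.inr hS, Or.inr hS⟩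
    exact {
      AS := fun x hx => ⟨hMZ hx, Or.inl hx⟩
      SZ := fun x hx => hx.1
      BT := Set.empty_subset _
      TZ := Set.empty_subset _
      disj := fun x _ h => h
      indA := hMi
      indB := by simp [Indep]
      domA := fun s hs => hs.2
      domB := fun t ht => absurd ht (Set.notMem_empty t)
      covA := fun x hx _ _ _ => hS x hx
      covB := fun x hx _ _ _ => hS x hx }
  set Q : Set V := {q | q ∈ M ∧ G.Adj a q} with hQ
  have hQZ : Q ⊆ Z := fun q hq => hMZ hq.1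
  have hQi : Indep G Q := fun x hx y hy => hMi x hx.1 y hy.1
  have hQne : Q.Nonempty := by
    obtain ⟨m, hm, h | h⟩ := hnb a haZ haM
    · exact ⟨m, hm, h⟩
    · exact absurd h (ha1 m hm)
  have hin : ∀ u ∈ Z, G.Adj u a → ∃ q ∈ Q, G.Adj u q := by
    intro u hu hua
    by_contra hno
    push Not at hno
    have huM : u ∉ M := fun h => ha1 u h hua
    obtain ⟨m, hm, h | h⟩ := hnb u hu huM
    · have hmQ : ¬ G.Adj a m := fun h' => hno m ⟨hm, h'⟩ h
      obtain ⟨q, hq⟩ := hQne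
      rcases hP q (hQZ hq) a haZ u hu m (hMZ hm) (Or.inr ⟨hua, hq.2⟩) (Or.inl h) with
        (h1 | h1) | (h1 | h1) | (h1 | h1)
      · exact ha2 q hq.1 u hu h1 hua
      · exact hno q hq h1
      · exact hMi q hq.1 m hm h1
      · exact hMi m hm q hq.1 h1
      · exact hmQ h1
      · exact ha1 m hm h1
    · exact ha2 m hm u hu h hua
  set Z' : Set V := {z | z ∈ Z ∧ z ∉ Q ∧ (∀ q ∈ Q, ¬ G.Adj z q) ∧ z ≠ a ∧ ¬ G.Adj a z} with hZ'
  have hZa : ∀ z ∈ Z', ¬ G.Adj z a := by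
    intro z hz hza
    obtain ⟨q, hq, h⟩ := hin z hz.1 hza
    exact hz.2.2.1 q hq h
  have hnot : ∀ z ∈ Z, z ∉ Z' → z ∈ Q ∨ (∃ q ∈ Q, G.Adj z q) ∨ z = a ∨ G.Adj a z := by
    intro z hz hz'
    by_contra hno
    push Not at hno
    exact hz' ⟨hz, hno.1, hno.2.1, hno.2.2.1, hno.2.2.2⟩
  have hdom : ∀ q ∈ Q, ∀ y ∈ Z', (∃ q' ∈ Q, G.Adj q' y) → G.Adj q y := by
    rintro q hq y hy ⟨q', hq', hq'y⟩
    by_contra hqy
    rcases hP y hy.1 q' (hQZ hq') a haZ q (hQZ hq) (Or.inr ⟨hq'.2, hq'y⟩) (Or.inl hq.2) with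
      (h1 | h1) | (h1 | h1) | (h1 | h1)
    · exact hZa y hy h1
    · exact hy.2.2.2.2 h1
    · exact hy.2.2.1 q hq h1
    · exact hqy h1
    · exact hQi q' hq' q hq h1
    · exact hQi q hq q' hq' h1
  refine ⟨a, Q, {y | y ∈ Z' ∧ ∃ q ∈ Q, G.Adj q y}, ?_⟩
  exact {
    aZ := haZ
    QZ := hQZ
    YZ := fun y hy => hy.1.1
    Qne := hQne
    indQ := hQi
    aQ := fun q hq => hq.2
    inA := hin
    QY := fun q hq y hy => hdom q hq y hy.1 hy.2
    YQ := fun y hy => ⟨hy.1.2.1, hy.1.2.2.1⟩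
    aY := fun y hy => ⟨hy.1.2.2.2.1, hZa y hy.1, hy.1.2.2.2.2⟩
    bd := by
      rintro z hz y ⟨hy, q, hq, hqy⟩ hzy
      by_cases hz' : z ∈ Z'
      · left
        refine ⟨hz', ?_⟩
        rcases hP a haZ q (hQZ hq) y hy.1 z hz (Or.inl ⟨hq.2, hqy⟩) hzy.symm with
          (h1 | h1) | (h1 | h1) | (h1 | h1)
        · exact absurd h1 hy.2.2.2.2
        · exact absurd h1 (hZa y hy)
        · exact absurd h1 hz'.2.2.2.2
        · exact absurd h1 (hZa z hz')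
        · exact ⟨q, hq, h1⟩
        · exact absurd h1 (hz'.2.2.1 q hq)
      · exact Or.inr (hnot z hz hz')
    outQ := by
      intro z hz q hq hqz
      by_cases hz' : z ∈ Z'
      · exact Or.inl ⟨hz', q, hq, hqz⟩
      · exact Or.inr (hnot z hz hz') }

lemma Step.covC {G : Digraph V} {Z Q Y : Set V} {a : V} (_ : Step G Z a Q Y) {S T : Set V}
    (haS : a ∈ S) (hQT : Q ⊆ T) {z : V}
    (h : z ∈ Q ∨ (∃ q ∈ Q, G.Adj z q) ∨ z = a ∨ G.Adj a z) : Cov G S T z := by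
  rcases h with h | ⟨q, hq, h⟩ | h | h
  · exact Or.inr (Or.inl (hQT h))
  · exact Or.inr (Or.inr ⟨q, hQT hq, h⟩)
  · subst h; exact Or.inl (Or.inl haS)
  · exact Or.inl (Or.inr ⟨a, haS, h⟩)

/-- a good set in the region of a step gives a good set -/
lemma Step.good {G : Digraph V} (hG : ∀ v, ¬ G.Adj v v) {Z Q Y : Set V} {a : V}
    (hs : Step G Z a Q Y) (hY : Good G Y) : Good G Z := by
  obtain ⟨A, S, B, T, hc, hB, -⟩ := hY
  have haQ : a ∉ Q := fun h => hG a (hs.aQ a h)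
  have key : ∀ B' : Set V, (B' = B ∧ B.Nonempty ∨ B' = Q ∧ B = ∅ ∧ ∀ x ∈ Y, Cov G S T x) →
      Cfg G Z (insert a A) (insert a S) B' (Q ∪ T) := by
    intro B' hB'
    have hAY : A ⊆ Y := hc.AS.trans hc.SZ
    have hBY : B ⊆ Y := hc.BT.trans hc.TZ
    have hmS : S ⊆ insert a S := Set.subset_insert _ _
    have hmT : T ⊆ Q ∪ T := Set.subset_union_right
    have hmQ : Q ⊆ Q ∪ T := Set.subset_union_left
    have hma : a ∈ insert a S := Set.mem_insert _ _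
    exact {
      AS := Set.insert_subset_insert hc.AS
      SZ := Set.insert_subset hs.aZ (hc.SZ.trans hs.YZ)
      BT := by
        rcases hB' with ⟨rfl, _⟩ | ⟨rfl, _⟩
        · exact hc.BT.trans hmT
        · exact hmQ
      TZ := Set.union_subset hs.QZ (hc.TZ.trans hs.YZ)
      disj := by
        rintro x (rfl | hx) (hx' | hx')
        · exact haQ hx'
        · exact (hs.aY _ (hc.TZ hx')).1 rfl
        · exact (hs.YQ x (hc.SZ hx)).1 hx'
        · exact hc.disj x hx hx'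
      indA := by
        rintro x (rfl | hx) y (rfl | hy) hxy
        · exact hG _ hxy
        · exact (hs.aY y (hAY hy)).2.2 hxy
        · exact (hs.aY x (hAY hx)).2.1 hxy
        · exact hc.indA x hx y hy hxy
      indB := by
        rcases hB' with ⟨rfl, _⟩ | ⟨rfl, _⟩
        · exact hc.indB
        · exact hs.indQ
      domA := by
        rintro s (rfl | hs')
        · exact Or.inl (Set.mem_insert _ _)
        · rcases hc.domA s hs' with h | ⟨b, hb, h⟩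
          · exact Or.inl (Or.inr h)
          · exact Or.inr ⟨b, Or.inr hb, h⟩
      domB := by
        rcases hB' with ⟨rfl, hne⟩ | ⟨rfl, he, _⟩
        · rintro t (ht | ht)
          · obtain ⟨b, hb⟩ := hne
            exact Or.inr ⟨b, hb, hs.QY t ht b (hBY hb)⟩
          · exact hc.domB t ht
        · rintro t (ht | ht)
          · exact Or.inl ht
          · rcases hc.domB t ht with h | ⟨b, hb, h⟩
            · rw [he] at h; exact absurd h (Set.notMem_empty _)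
            · rw [he] at hb; exact absurd hb (Set.notMem_empty _)
      covA := by
        rintro x hx b (rfl | hb) hxb
        · obtain ⟨q, hq, h⟩ := hs.inA x hx hxb
          exact Or.inr (Or.inr ⟨q, hmQ hq, h⟩)
        · rcases hs.bd x hx b (hAY hb) (Or.inl hxb) with h | h
          · exact cov_mono hmS hmT (hc.covA x h b hb hxb)
          · exact hs.covC hma hmQ h
      covB := by
        rcases hB' with ⟨rfl, hne⟩ | ⟨rfl, he, hfull⟩
        · intro x hx b hb hbx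
          rcases hs.bd x hx b (hBY hb) (Or.inr hbx) with h | h
          · exact cov_mono hmS hmT (hc.covB x h b hb hbx)
          · exact hs.covC hma hmQ h
        · intro x hx b hb hbx
          rcases hs.outQ x hx b hb hbx with h | h
          · exact cov_mono hmS hmT (hfull x h)
          · exact hs.covC hma hmQ h }
  rcases B.eq_empty_or_nonempty with he | hne
  · rcases hB with hB | hfull
    · rw [he] at hB; exact absurd hB Set.not_nonempty_empty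
    · exact ⟨_, _, Q, _, key Q (Or.inr ⟨rfl, he, hfull⟩), Or.inl hs.Qne,
        Or.inl ⟨a, Set.mem_insert _ _⟩⟩
  · exact ⟨_, _, B, _, key B (Or.inl ⟨rfl, hne⟩), Or.inl hne, Or.inl ⟨a, Set.mem_insert _ _⟩⟩

end Pool.Agent.Lib.MP_9317e9_co.P4
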