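import Mathlib
import Pool.Agent.Lib.MP_9317e9_co.P4.Cfg

set_option autoImplicit false

universe u

namespace Pool.Agent.Lib.MP_9317e9_co.P4

open Pool.Agent.Lib.MP_9317e9_co

variable {V : Type u}

lemma double_step {G : Digraph V} (hG : ∀ v, ¬ G.Adj v v) {Z : Set V} (hP : PathCond G Z)
    (hZ : ¬ Good G Z) : ∃ a Q Y b P Z', Step G Z a Q Y ∧ Step (rv G) Y b P Z' ∧ ¬ Good G Z' := by
  obtain ⟨a, Q, Y, h1⟩ := exists_step hG hP hZ
  have hY : ¬ Good G Y := fun h => hZ (h1.good hG h)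
  have hY' : ¬ Good (rv G) Y := fun h => hY (good_rv h)
  obtain ⟨b, P, Z', h2⟩ := exists_step (G := rv G) hG (pathCond_rv (pathCond_mono h1.YZ hP)) hY'
  exact ⟨a, Q, Y, b, P, Z', h1, h2, fun h => hY' (h2.good (G := rv G) hG (good_rv h))⟩

lemma seq_good {G : Digraph V} (hG : ∀ v, ¬ G.Adj v v) (Z Y Q P : ℕ → Set V) (a b : ℕ → V)
    (h1 : ∀ n, Step G (Z n) (a n) (Q n) (Y n))
    (h2 : ∀ n, Step (rv G) (Y n) (b n) (P n) (Z (n + 1))) : Good G (Z 0) := by
  have hZY : ∀ n, Z (n + 1) ⊆ Y n := fun n => (h2 n).YZ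
  have hYZ : ∀ n, Y n ⊆ Z n := fun n => (h1 n).YZ
  have hZm : ∀ m n, m ≤ n → Z n ⊆ Z m := by
    intro m n h
    induction h with
    | refl => exact subset_rfl
    | step _ ih => exact ((hZY _).trans (hYZ _)).trans ih
  have hZYm : ∀ m n, m < n → Z n ⊆ Y m := fun m n h => (hZm (m + 1) n h).trans (hZY m)
  have hYm : ∀ m n, m ≤ n → Y n ⊆ Y m := by
    intro m n h
    rcases h.eq_or_lt with rfl | h
    · exact subset_rfl
    · exact (hYZ n).trans (hZYm m n h)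
  have hYZm : ∀ m n, m < n → Y n ⊆ Z (m + 1) := fun m n h => (hYZ n).trans (hZm _ _ h)
  have haZ : ∀ n, a n ∈ Z n := fun n => (h1 n).aZ
  have hbY : ∀ n, b n ∈ Y n := fun n => (h2 n).aZ
  have haY : ∀ n, a n ∉ Y n := fun n h => ((h1 n).aY _ h).1 rfl
  have hbZ : ∀ n, b n ∉ Z (n + 1) := fun n h => ((h2 n).aY _ h).1 rfl
  have hQZ : ∀ n, Q n ⊆ Z n := fun n => (h1 n).QZ
  have hPY : ∀ n, P n ⊆ Y n := fun n => (h2 n).QZ
  have hQY : ∀ n x, x ∈ Q n → x ∉ Y n := fun n x hx hy => ((h1 n).YQ x hy).1 hx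
  have hPZ : ∀ n x, x ∈ P n → x ∉ Z (n + 1) := fun n x hx hy => ((h2 n).YQ x hy).1 hx
  have haQ : ∀ n, ∀ q ∈ Q n, G.Adj (a n) q := fun n => (h1 n).aQ
  have hPb : ∀ n, ∀ p ∈ P n, G.Adj p (b n) := fun n => (h2 n).aQ
  set S : Set V := {x | (∃ n, x = a n) ∨ ∃ n, x ∈ P n} with hS
  set T : Set V := {x | (∃ n, x = b n) ∨ ∃ n, x ∈ Q n} with hT
  have hC1 : ∀ n z, (z ∈ Q n ∨ (∃ q ∈ Q n, G.Adj z q) ∨ z = a n ∨ G.Adj (a n) z) →
      Cov G S T z := fun n z hz =>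
    (h1 n).covC (S := S) (T := T) (Or.inl ⟨n, rfl⟩) (fun q hq => Or.inr ⟨n, hq⟩) hz
  have hC2 : ∀ n z, (z ∈ P n ∨ (∃ q ∈ P n, G.Adj q z) ∨ z = b n ∨ G.Adj z (b n)) →
      Cov G S T z := fun n z hz =>
    cov_rv ((h2 n).covC (S := T) (T := S) (Or.inl ⟨n, rfl⟩) (fun q hq => Or.inr ⟨n, hq⟩) hz)
  have hexZ : ∀ n, ∀ v ∈ Z n, ∀ x ∈ Z 0, (G.Adj x v ∨ G.Adj v x) → x ∈ Z n ∨ Cov G S T x := by
    intro n
    induction n with
    | zero => exact fun v _ x hx _ => Or.inl hx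
    | succ n ih =>
      intro v hv x hx hxv
      rcases ih v (hYZ n (hZY n hv)) x hx hxv with h | h
      · rcases (h1 n).bd x h v (hZY n hv) hxv with h | h
        · rcases (h2 n).bd x h v hv hxv.symm with h | h
          · exact Or.inl h
          · exact Or.inr (hC2 n x h)
        · exact Or.inr (hC1 n x h)
      · exact Or.inr h
  have hexY : ∀ n, ∀ v ∈ Y n, ∀ x ∈ Z 0, (G.Adj x v ∨ G.Adj v x) → x ∈ Y n ∨ Cov G S T x := by
    intro n v hv x hx hxv
    rcases hexZ n v (hYZ n hv) x hx hxv with h | h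
    · rcases (h1 n).bd x h v hv hxv with h | h
      · exact Or.inl h
      · exact Or.inr (hC1 n x h)
    · exact Or.inr h
  refine ⟨Set.range a, S, Set.range b, T, ?_, Or.inl ⟨b 0, 0, rfl⟩, Or.inl ⟨a 0, 0, rfl⟩⟩
  exact {
    AS := by rintro _ ⟨n, rfl⟩; exact Or.inl ⟨n, rfl⟩
    SZ := by
      rintro x (⟨n, rfl⟩ | ⟨n, h⟩)
      · exact hZm 0 n (Nat.zero_le _) (haZ n)
      · exact hZm 0 n (Nat.zero_le _) (hYZ n (hPY n h))
    BT := by rintro _ ⟨n, rfl⟩; exact Or.inl ⟨n, rfl⟩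
    TZ := by
      rintro x (⟨n, rfl⟩ | ⟨n, h⟩)
      · exact hZm 0 n (Nat.zero_le _) (hYZ n (hbY n))
      · exact hZm 0 n (Nat.zero_le _) (hQZ n h)
    disj := by
      rintro x (⟨n, rfl⟩ | ⟨n, hp⟩) (⟨m, hm⟩ | ⟨m, hq⟩)
      · rcases le_or_gt n m with h | h
        · exact haY n (hm ▸ hYm n m h (hbY m))
        · exact hbZ m (hm ▸ hZm (m + 1) n h (haZ n))
      · rcases lt_trichotomy n m with h | h | h
        · exact haY n (hZYm n m h (hQZ m hq))
        · subst h; exact hG _ (haQ n _ hq)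
        · exact hQY m _ hq (hZYm m n h (haZ n))
      · rcases lt_trichotomy n m with h | h | h
        · exact hPZ n x hp (hm ▸ hYZm n m h (hbY m))
        · subst h; exact hG _ (hm ▸ hPb n _ hp)
        · exact hbZ m (hm ▸ hYZm m n h (hPY n hp))
      · rcases lt_or_ge n m with h | h
        · exact hPZ n x hp (hZm (n + 1) m h (hQZ m hq))
        · exact hQY m x hq (hYm m n h (hPY n hp))
    indA := by
      rintro _ ⟨n, rfl⟩ _ ⟨m, rfl⟩ h
      rcases lt_trichotomy n m with hnm | hnm | hnm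
      · exact ((h1 n).aY _ (hZYm n m hnm (haZ m))).2.2 h
      · subst hnm; exact hG _ h
      · exact ((h1 m).aY _ (hZYm m n hnm (haZ n))).2.1 h
    indB := by
      rintro _ ⟨n, rfl⟩ _ ⟨m, rfl⟩ h
      rcases lt_trichotomy n m with hnm | hnm | hnm
      · exact ((h2 n).aY _ (hYZm n m hnm (hbY m))).2.1 h
      · subst hnm; exact hG _ h
      · exact ((h2 m).aY _ (hYZm m n hnm (hbY n))).2.2 h
    domA := by
      rintro s (⟨n, rfl⟩ | ⟨n, hp⟩)
      · exact Or.inl ⟨n, rfl⟩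
      · exact Or.inr ⟨a (n + 1), ⟨n + 1, rfl⟩, (h2 n).QY s hp _ (haZ (n + 1))⟩
    domB := by
      rintro s (⟨n, rfl⟩ | ⟨n, hq⟩)
      · exact Or.inl ⟨n, rfl⟩
      · exact Or.inr ⟨b n, ⟨n, rfl⟩, (h1 n).QY s hq _ (hbY n)⟩
    covA := by
      rintro x hx _ ⟨n, rfl⟩ hxa
      rcases hexZ n (a n) (haZ n) x hx (Or.inl hxa) with h | h
      · obtain ⟨q, hq, h⟩ := (h1 n).inA x h hxa
        exact hC1 n x (Or.inr (Or.inl ⟨q, hq, h⟩))
      · exact h
    covB := by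
      rintro x hx _ ⟨n, rfl⟩ hbx
      rcases hexY n (b n) (hbY n) x hx (Or.inr hbx) with h | h
      · obtain ⟨q, hq, h⟩ := (h2 n).inA x h hbx
        exact hC2 n x (Or.inr (Or.inl ⟨q, hq, h⟩))
      · exact h }

theorem good_all {G : Digraph V} (hG : ∀ v, ¬ G.Adj v v) {Z₀ : Set V} (hP : PathCond G Z₀) :
    Good G Z₀ := by
  by_contra h0
  have step : ∀ Z : {Z : Set V // Z ⊆ Z₀ ∧ ¬ Good G Z}, ∃ (a : V) (Q Y : Set V) (b : V)
      (P : Set V) (Z' : {Z : Set V // Z ⊆ Z₀ ∧ ¬ Good G Z}),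
      Step G Z.1 a Q Y ∧ Step (rv G) Y b P Z'.1 := by
    rintro ⟨Z, hZ, hZg⟩
    obtain ⟨a, Q, Y, b, P, Z', hs1, hs2, hg⟩ := double_step hG (pathCond_mono hZ hP) hZg
    exact ⟨a, Q, Y, b, P, ⟨Z', (hs2.YZ.trans hs1.YZ).trans hZ, hg⟩, hs1, hs2⟩
  choose a Q Y b P nx h1 h2 using step
  let Zs : ℕ → {Z : Set V // Z ⊆ Z₀ ∧ ¬ Good G Z} := fun n => nx^[n] ⟨Z₀, subset_rfl, h0⟩
  have hsucc : ∀ n, Zs (n + 1) = nx (Zs n) := fun n => by
    simp only [Zs, Function.iterate_succ_apply']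
  apply h0
  refine seq_good hG (fun n => (Zs n).1) (fun n => Y (Zs n)) (fun n => Q (Zs n))
    (fun n => P (Zs n)) (fun n => a (Zs n)) (fun n => b (Zs n)) (fun n => h1 (Zs n)) ?_
  intro n
  rw [hsucc]
  exact h2 (Zs n)

/-- if every subset is good, a configuration covering everything exists -/
theorem exists_full {G : Digraph V} {Z : Set V} (h : ∀ Z' ⊆ Z, Good G Z') :
    ∃ A S B T, Cfg G Z A S B T ∧ ∀ x ∈ Z, Cov G S T x := by
  obtain ⟨⟨A, S, B, T⟩, hm⟩ := zorn_le₀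
    {p : Set V × Set V × Set V × Set V | Cfg G Z p.1 p.2.1 p.2.2.1 p.2.2.2} (by
      intro c hc hchain
      refine ⟨({x | ∃ p ∈ c, x ∈ p.1}, {x | ∃ p ∈ c, x ∈ p.2.1}, {x | ∃ p ∈ c, x ∈ p.2.2.1},
        {x | ∃ p ∈ c, x ∈ p.2.2.2}), ?_, ?_⟩
      · exact {
          AS := by rintro x ⟨p, hp, hx⟩; exact ⟨p, hp, (hc hp).AS hx⟩
          SZ := by rintro x ⟨p, hp, hx⟩; exact (hc hp).SZ hx
          BT := by rintro x ⟨p, hp, hx⟩; exact ⟨p, hp, (hc hp).BT hx⟩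
          TZ := by rintro x ⟨p, hp, hx⟩; exact (hc hp).TZ hx
          disj := by
            rintro x ⟨p, hp, hx⟩ ⟨p', hp', hx'⟩
            rcases hchain.total hp hp' with hle | hle
            · exact (hc hp').disj x (hle.2.1 hx) hx'
            · exact (hc hp).disj x hx (hle.2.2.2 hx')
          indA := by
            rintro x ⟨p, hp, hx⟩ y ⟨p', hp', hy⟩
            rcases hchain.total hp hp' with hle | hle
            · exact (hc hp').indA x (hle.1 hx) y hy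
            · exact (hc hp).indA x hx y (hle.1 hy)
          indB := by
            rintro x ⟨p, hp, hx⟩ y ⟨p', hp', hy⟩
            rcases hchain.total hp hp' with hle | hle
            · exact (hc hp').indB x (hle.2.2.1 hx) y hy
            · exact (hc hp).indB x hx y (hle.2.2.1 hy)
          domA := by
            rintro x ⟨p, hp, hx⟩
            rcases (hc hp).domA x hx with h | ⟨a, ha, h⟩
            · exact Or.inl ⟨p, hp, h⟩
            · exact Or.inr ⟨a, ⟨p, hp, ha⟩, h⟩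
          domB := by
            rintro x ⟨p, hp, hx⟩
            rcases (hc hp).domB x hx with h | ⟨a, ha, h⟩
            · exact Or.inl ⟨p, hp, h⟩
            · exact Or.inr ⟨a, ⟨p, hp, ha⟩, h⟩
          covA := by
            rintro x hx a ⟨p, hp, ha⟩ hxa
            exact cov_mono (fun y hy => ⟨p, hp, hy⟩) (fun y hy => ⟨p, hp, hy⟩)
              ((hc hp).covA x hx a ha hxa)
          covB := by
            rintro x hx a ⟨p, hp, ha⟩ hxa
            exact cov_mono (fun y hy => ⟨p, hp, hy⟩) (fun y hy => ⟨p, hp, hy⟩)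
              ((hc hp).covB x hx a ha hxa) }
      · intro p hp
        exact ⟨fun x hx => ⟨p, hp, hx⟩, fun x hx => ⟨p, hp, hx⟩, fun x hx => ⟨p, hp, hx⟩,
          fun x hx => ⟨p, hp, hx⟩⟩)
  have hc : Cfg G Z A S B T := hm.prop
  refine ⟨A, S, B, T, hc, ?_⟩
  by_contra hno
  push Not at hno
  obtain ⟨z, hz, hzc⟩ := hno
  set R : Set V := {x | x ∈ Z ∧ ¬ Cov G S T x} with hR
  have hRZ : R ⊆ Z := fun x hx => hx.1
  obtain ⟨A', S', B', T', hc', hB', hA'⟩ := h R hRZ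
  have hSR : ∀ x ∈ S, x ∉ R := fun x hx hxR => hxR.2 (Or.inl (Or.inl hx))
  have hTR : ∀ x ∈ T, x ∉ R := fun x hx hxR => hxR.2 (Or.inr (Or.inl hx))
  have hA'R : A' ⊆ R := hc'.AS.trans hc'.SZ
  have hB'R : B' ⊆ R := hc'.BT.trans hc'.TZ
  have hnew : Cfg G Z (A ∪ A') (S ∪ S') (B ∪ B') (T ∪ T') := {
    AS := Set.union_subset_union hc.AS hc'.AS
    SZ := Set.union_subset hc.SZ (hc'.SZ.trans hRZ)
    BT := Set.union_subset_union hc.BT hc'.BT
    TZ := Set.union_subset hc.TZ (hc'.TZ.trans hRZ)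
    disj := by
      rintro x (hx | hx) (hx' | hx')
      · exact hc.disj x hx hx'
      · exact hSR x hx (hc'.TZ hx')
      · exact hTR x hx' (hc'.SZ hx)
      · exact hc'.disj x hx hx'
    indA := by
      rintro x (hx | hx) y (hy | hy) hxy
      · exact hc.indA x hx y hy hxy
      · exact (hA'R hy).2 (Or.inl (Or.inr ⟨x, hc.AS hx, hxy⟩))
      · exact (hA'R hx).2 (hc.covA x (hA'R hx).1 y hy hxy)
      · exact hc'.indA x hx y hy hxy
    indB := by
      rintro x (hx | hx) y (hy | hy) hxy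
      · exact hc.indB x hx y hy hxy
      · exact (hB'R hy).2 (hc.covB y (hB'R hy).1 x hx hxy)
      · exact (hB'R hx).2 (Or.inr (Or.inr ⟨y, hc.BT hy, hxy⟩))
      · exact hc'.indB x hx y hy hxy
    domA := by
      rintro s (hs | hs)
      · rcases hc.domA s hs with h | ⟨a, ha, h⟩
        · exact Or.inl (Or.inl h)
        · exact Or.inr ⟨a, Or.inl ha, h⟩
      · rcases hc'.domA s hs with h | ⟨a, ha, h⟩
        · exact Or.inl (Or.inr h)
        · exact Or.inr ⟨a, Or.inr ha, h⟩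
    domB := by
      rintro s (hs | hs)
      · rcases hc.domB s hs with h | ⟨a, ha, h⟩
        · exact Or.inl (Or.inl h)
        · exact Or.inr ⟨a, Or.inl ha, h⟩
      · rcases hc'.domB s hs with h | ⟨a, ha, h⟩
        · exact Or.inl (Or.inr h)
        · exact Or.inr ⟨a, Or.inr ha, h⟩
    covA := by
      rintro x hx a (ha | ha) hxa
      · exact cov_mono Set.subset_union_left Set.subset_union_left (hc.covA x hx a ha hxa)
      · by_cases hxc : Cov G S T x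
        · exact cov_mono Set.subset_union_left Set.subset_union_left hxc
        · exact cov_mono Set.subset_union_right Set.subset_union_right
            (hc'.covA x ⟨hx, hxc⟩ a ha hxa)
    covB := by
      rintro x hx a (ha | ha) hxa
      · exact cov_mono Set.subset_union_left Set.subset_union_left (hc.covB x hx a ha hxa)
      · by_cases hxc : Cov G S T x
        · exact cov_mono Set.subset_union_left Set.subset_union_left hxc
        · exact cov_mono Set.subset_union_right Set.subset_union_right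
            (hc'.covB x ⟨hx, hxc⟩ a ha hxa) }
  have hle := hm.le_of_ge (y := (A ∪ A', S ∪ S', B ∪ B', T ∪ T')) hnew
    ⟨Set.subset_union_left, Set.subset_union_left, Set.subset_union_left, Set.subset_union_left⟩
  have hSle : S ∪ S' ⊆ S := hle.2.1
  have hTle : T ∪ T' ⊆ T := hle.2.2.2
  have hS' : ∀ x ∈ S', False := fun x hx => hSR x (hSle (Or.inr hx)) (hc'.SZ hx)
  have hT' : ∀ x ∈ T', False := fun x hx => hTR x (hTle (Or.inr hx)) (hc'.TZ hx)
  have hzR : z ∈ R := ⟨hz, hzc⟩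
  have hnc : ¬ Cov G S' T' z := by
    rintro ((h | ⟨s, hs, h⟩) | (h | ⟨t, ht, h⟩))
    · exact hS' _ h
    · exact hS' _ hs
    · exact hT' _ h
    · exact hT' _ ht
  rcases hB' with ⟨b, hb⟩ | h
  · exact hT' b (hc'.BT hb)
  · exact hnc (h z hzR)

lemma solv_of_full {G : Digraph V} {Z A S B T : Set V} (hc : Cfg G Z A S B T)
    (h : ∀ x ∈ Z, Cov G S T x) : Solv G Z := by
  refine ⟨{x | x ∈ Z ∧ (x ∈ S ∨ (x ∉ T ∧ ∃ s ∈ S, G.Adj s x))},
    {x | x ∈ Z ∧ ¬ (x ∈ S ∨ (x ∉ T ∧ ∃ s ∈ S, G.Adj s x))}, A, B, ?_, ?_, ⟨?_, hc.indA, ?_⟩,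
    ⟨?_, hc.indB, ?_⟩⟩
  · ext x
    constructor
    · rintro (hx | hx) <;> exact hx.1
    · intro hx
      by_cases h' : x ∈ S ∨ (x ∉ T ∧ ∃ s ∈ S, G.Adj s x)
      · exact Or.inl ⟨hx, h'⟩
      · exact Or.inr ⟨hx, h'⟩
  · rw [Set.disjoint_left]
    rintro x hx hx'
    exact hx'.2 hx.2
  · intro x hx
    exact ⟨hc.SZ (hc.AS hx), Or.inl (hc.AS hx)⟩
  · rintro x ⟨_, hx | ⟨_, s, hs, hsx⟩⟩
    · rcases hc.domA x hx with h | ⟨a, ha, h⟩
      · exact Or.inl h
      · exact Or.inr ⟨a, ha, Or.inl h⟩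
    · rcases hc.domA s hs with h | ⟨a, ha, h⟩
      · exact Or.inr ⟨s, h, Or.inl hsx⟩
      · exact Or.inr ⟨a, ha, Or.inr ⟨s, ⟨hc.SZ hs, Or.inl hs⟩, h, hsx⟩⟩
  · intro x hx
    refine ⟨hc.TZ (hc.BT hx), ?_⟩
    rintro (h | h)
    · exact hc.disj x h (hc.BT hx)
    · exact h.1 (hc.BT hx)
  · rintro x ⟨hx, hxn⟩
    have hTW : ∀ t ∈ T, t ∈ {x | x ∈ Z ∧ ¬ (x ∈ S ∨ (x ∉ T ∧ ∃ s ∈ S, G.Adj s x))} := by
      intro t ht
      refine ⟨hc.TZ ht, ?_⟩
      rintro (h | h)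
      · exact hc.disj t h ht
      · exact h.1 ht
    have h2 : x ∈ T ∨ ∃ t ∈ T, G.Adj x t := by
      rcases h x hx with (h | h) | h
      · exact absurd (Or.inl h) hxn
      · by_cases hT : x ∈ T
        · exact Or.inl hT
        · exact absurd (Or.inr ⟨hT, h⟩) hxn
      · exact h
    rcases h2 with h2 | ⟨t, ht, h2⟩
    · rcases hc.domB x h2 with h | ⟨b, hb, h⟩
      · exact Or.inl h
      · exact Or.inr ⟨b, hb, Or.inl h⟩
    · rcases hc.domB t ht with h | ⟨b, hb, h⟩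
      · exact Or.inr ⟨t, h, Or.inl h2⟩
      · exact Or.inr ⟨b, hb, Or.inr ⟨t, hTW t ht, h2, h⟩⟩

theorem solv_of_pathCond {G : Digraph V} (hG : ∀ v, ¬ G.Adj v v) {Y : Set V}
    (hP : PathCond G Y) : ∀ U ⊆ Y, Solv G U := by
  intro U hU
  obtain ⟨A, S, B, T, hc, h⟩ := exists_full (G := G) (Z := U)
    fun Z' hZ' => good_all hG (pathCond_mono (hZ'.trans hU) hP)
  exact solv_of_full hc h

end Pool.Agent.Lib.MP_9317e9_co.P4
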