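import Mathlib
import Pool.Agent.Lib.MP_9317e9_co.Main
import Pool.Agent.Lib.MP_9317e9_co.P4.Seq

set_option autoImplicit false

universe u

namespace Pool.Agent.Lib.MP_9317e9_co.P4

open Pool.Agent.Lib.MP_9317e9_co

variable {V : Type u}

lemma solv_rv {G : Digraph V} {U : Set V} (h : Solv G U) : Solv (rv G) U := by
  obtain ⟨W0, W1, A, B, hW, hd, ⟨a1, a2, a3⟩, ⟨b1, b2, b3⟩⟩ := h
  refine ⟨W1, W0, B, A, by rw [Set.union_comm]; exact hW, hd.symm, ⟨b1, ?_, ?_⟩, ⟨a1, ?_, ?_⟩⟩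
  · exact fun x hx y hy hxy => b2 y hy x hx hxy
  · intro v hv
    rcases b3 v hv with h | ⟨a, ha, h | ⟨u, hu, h, h'⟩⟩
    · exact Or.inl h
    · exact Or.inr ⟨a, ha, Or.inl h⟩
    · exact Or.inr ⟨a, ha, Or.inr ⟨u, hu, h', h⟩⟩
  · exact fun x hx y hy hxy => a2 y hy x hx hxy
  · intro v hv
    rcases a3 v hv with h | ⟨a, ha, h | ⟨u, hu, h, h'⟩⟩
    · exact Or.inl h
    · exact Or.inr ⟨a, ha, Or.inl h⟩
    · exact Or.inr ⟨a, ha, Or.inr ⟨u, hu, h', h⟩⟩

/-- absorb a part in which every subset has a kernel -/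
lemma absorb_kernel {G : Digraph V} {K Y : Set V}
    (hK : ∀ U ⊆ K, ∃ A ⊆ U, Indep G A ∧ ∀ v ∈ U, v ∈ Out1 G A)
    (hY : ∀ U ⊆ Y, Solv G U) : ∀ U ⊆ K ∪ Y, Solv G U := by
  intro U hU
  obtain ⟨A, hAU, hA, hdom⟩ := hK (U ∩ K) Set.inter_subset_right
  refine solv_step (A := A) (B := ∅) (hAU.trans Set.inter_subset_left) (Set.empty_subset _) hA
    (by simp [Indep]) (Set.disjoint_empty _) (hY _ ?_)
  rintro v ⟨hvU, hv⟩
  rcases hU hvU with h | h
  · exact absurd (Or.inl (hdom v ⟨hvU, h⟩)) hv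
  · exact h

/-- greedy subset along a well-order -/
lemma exists_greedy {G : Digraph V} (hG : ∀ v, ¬ G.Adj v v) (D : Set V) :
    ∃ S ⊆ D, (∀ v ∈ D, v ∈ Out1 G S) ∧
      ∀ x ∈ S, ∀ y ∈ S, G.Adj y x → WellOrderingRel x y := by
  classical
  have hwf : WellFounded (WellOrderingRel (α := V)) := IsWellFounded.wf
  let P : V → Prop := hwf.fix (fun x IH => ∀ y, (h : WellOrderingRel y x) → y ∈ D → IH y h →
    ¬ G.Adj y x)
  have hPx : ∀ x, P x ↔ ∀ y, WellOrderingRel y x → y ∈ D → P y → ¬ G.Adj y x := by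
    intro x
    have := hwf.fix_eq (C := fun _ => Prop) (fun x IH => ∀ y, (h : WellOrderingRel y x) →
      y ∈ D → IH y h → ¬ G.Adj y x) x
    exact iff_of_eq this
  refine ⟨{x | x ∈ D ∧ P x}, fun x hx => hx.1, ?_, ?_⟩
  · intro v hv
    by_cases hPv : P v
    · exact Or.inl ⟨hv, hPv⟩
    · rw [hPx] at hPv
      push Not at hPv
      obtain ⟨y, -, hyD, hPy, hyv⟩ := hPv
      exact Or.inr ⟨y, ⟨hyD, hPy⟩, hyv⟩
  · rintro x ⟨hxD, hPx'⟩ y ⟨hyD, hPy⟩ hyx
    have h1 : ¬ WellOrderingRel y x := fun h => (hPx x).1 hPx' y h hyD hPy hyx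
    have h2 : y ≠ x := by rintro rfl; exact hG _ hyx
    rcases trichotomous_of WellOrderingRel x y with h | h | h
    · exact h
    · exact absurd h.symm h2
    · exact absurd h h1

/-- kernels of digraphs with finite in-degrees all of whose arcs go down in a well-order -/
lemma exists_kernel_down {G : Digraph V} {S : Set V}
    (hS : ∀ x ∈ S, ∀ y ∈ S, G.Adj y x → WellOrderingRel x y)
    (hfin : ∀ v ∈ S, {u | u ∈ S ∧ G.Adj u v}.Finite) :
    ∃ A ⊆ S, Indep G A ∧ ∀ v ∈ S, v ∈ Out1 G A := by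
  classical
  have hch : ∀ F : Finset V, ∃ A ⊆ (F : Set V) ∩ S, Indep G A ∧
      ∀ v ∈ (F : Set V) ∩ S, v ∈ Out1 G A := by
    intro F
    apply exists_kernel_wf
    rintro ⟨f, hf, hadj⟩
    have hstep : ∀ n, WellOrderingRel (f n) (f (n + 1)) := fun n =>
      hS _ (hf n).2 _ (hf (n + 1)).2 (hadj n)
    have hlt : ∀ m k, WellOrderingRel (f m) (f (m + k + 1)) := by
      intro m k
      induction k with
      | zero => exact hstep m
      | succ k ih => exact IsTrans.trans _ _ _ ih (hstep (m + k + 1))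
    have hinj : Function.Injective f := by
      intro m n hmn
      by_contra hne
      rcases lt_or_gt_of_ne hne with h | h
      · obtain ⟨k, rfl⟩ := Nat.exists_eq_add_of_lt h
        exact (irrefl (r := WellOrderingRel) (f m)) (by
          have := hlt m k
          rwa [← hmn] at this)
      · obtain ⟨k, rfl⟩ := Nat.exists_eq_add_of_lt h
        exact (irrefl (r := WellOrderingRel) (f n)) (by
          have := hlt n k
          rwa [hmn] at this)
    exact Set.infinite_range_of_injective hinj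
      (F.finite_toSet.subset (by rintro _ ⟨n, rfl⟩; exact (hf n).1))
  choose K hK1 hK2 hK3 using hch
  set 𝒰 : Ultrafilter (Finset V) := Ultrafilter.of Filter.atTop with h𝒰
  have hle : (𝒰 : Filter (Finset V)) ≤ Filter.atTop := Ultrafilter.of_le _
  refine ⟨{v | ∀ᶠ F in (𝒰 : Filter (Finset V)), v ∈ K F}, ?_, ?_, ?_⟩
  · intro v hv
    obtain ⟨F, hF⟩ := hv.exists
    exact (hK1 F hF).2
  · intro a ha b hb hab
    obtain ⟨F, hF1, hF2⟩ := (Filter.Eventually.and ha hb).exists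
    exact hK2 F a hF1 b hF2 hab
  · intro v hv
    have hNf := hfin v hv
    have hev : ∀ᶠ F in (𝒰 : Filter (Finset V)), v ∈ K F ∨
        ∃ a ∈ {u | u ∈ S ∧ G.Adj u v}, a ∈ K F := by
      have h1 : ∀ᶠ F in (𝒰 : Filter (Finset V)), {v} ⊆ F := hle (Filter.mem_atTop _)
      filter_upwards [h1] with F hF
      have hvF : v ∈ F := hF (Finset.mem_singleton_self _)
      rcases hK3 F v ⟨hvF, hv⟩ with h | ⟨a, ha, h⟩
      · exact Or.inl h
      · exact Or.inr ⟨a, ⟨(hK1 F ha).2, h⟩, ha⟩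
    rw [Ultrafilter.eventually_or, Ultrafilter.eventually_exists_mem_iff hNf] at hev
    rcases hev with h | ⟨a, ha, h⟩
    · exact Or.inl h
    · exact Or.inr ⟨a, h, ha.2⟩

/-- absorb a part with finite in-degrees -/
lemma absorb_finite {G : Digraph V} (hG : ∀ v, ¬ G.Adj v v) {K Y : Set V}
    (hK : ∀ v ∈ K, {u | u ∈ K ∧ G.Adj u v}.Finite)
    (hY : ∀ U ⊆ Y, Solv G U) : ∀ U ⊆ K ∪ Y, Solv G U := by
  intro U hU
  obtain ⟨S, hSD, hdom, hdown⟩ := exists_greedy hG (U ∩ K)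
  have hSU : S ⊆ U := hSD.trans Set.inter_subset_left
  have hSK : S ⊆ K := hSD.trans Set.inter_subset_right
  obtain ⟨W0, W1, A, B, hW, hd, ⟨a1, a2, a3⟩, hQS⟩ := hY (U \ Out1 G S) (by
    rintro v ⟨hvU, hv⟩
    rcases hU hvU with h | h
    · exact absurd (hdom v ⟨hvU, h⟩) hv
    · exact h)
  have hW' : ∀ v, v ∈ W0 ∪ W1 → v ∈ U ∧ v ∉ Out1 G S := by
    intro v hv; rw [hW] at hv; exact hv
  set S' : Set V := {s | s ∈ S ∧ ¬ ∃ a ∈ A, G.Adj a s} with hS'
  obtain ⟨L, hLS, hLi, hLd⟩ := exists_kernel_down (G := G) (S := S')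
    (fun x hx y hy => hdown x hx.1 y hy.1)
    (fun v hv => (hK v (hSK hv.1)).subset fun w hw => ⟨hSK hw.1.1, hw.2⟩)
  have hSdom : ∀ s ∈ S, s ∈ A ∪ L ∨ ∃ a ∈ A ∪ L, G.Adj a s := by
    intro s hs
    by_cases h : ∃ a ∈ A, G.Adj a s
    · obtain ⟨a, ha, h⟩ := h
      exact Or.inr ⟨a, Or.inl ha, h⟩
    · rcases hLd s ⟨hs, h⟩ with h | ⟨a, ha, h⟩
      · exact Or.inl (Or.inr h)
      · exact Or.inr ⟨a, Or.inr ha, h⟩
  refine ⟨W0 ∪ (U ∩ Out1 G S), W1, A ∪ L, B, ?_, ?_, ⟨?_, ?_, ?_⟩, hQS⟩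
  · ext v
    constructor
    · rintro ((h | h) | h)
      · exact (hW' v (Or.inl h)).1
      · exact h.1
      · exact (hW' v (Or.inr h)).1
    · intro hv
      by_cases h : v ∈ Out1 G S
      · exact Or.inl (Or.inr ⟨hv, h⟩)
      · have : v ∈ W0 ∪ W1 := by rw [hW]; exact ⟨hv, h⟩
        rcases this with h | h
        · exact Or.inl (Or.inl h)
        · exact Or.inr h
  · rw [Set.disjoint_left]
    rintro v (h | h) h'
    · exact Set.disjoint_left.1 hd h h'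
    · exact (hW' v (Or.inr h')).2 h.2
  · rintro v (h | h)
    · exact Or.inl (a1 h)
    · exact Or.inr ⟨hSU (hLS h).1, Or.inl (hLS h).1⟩
  · rintro x (hx | hx) y (hy | hy) hxy
    · exact a2 x hx y hy hxy
    · exact (hLS hy).2 ⟨x, hx, hxy⟩
    · exact (hW' y (Or.inl (a1 hy))).2 (Or.inr ⟨x, (hLS hx).1, hxy⟩)
    · exact hLi x hx y hy hxy
  · rintro v (hv | ⟨hvU, hv | ⟨s, hs, hsv⟩⟩)
    · rcases a3 v hv with h | ⟨a, ha, h | ⟨w, hw, h, h'⟩⟩
      · exact Or.inl (Or.inl h)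
      · exact Or.inr ⟨a, Or.inl ha, Or.inl h⟩
      · exact Or.inr ⟨a, Or.inl ha, Or.inr ⟨w, Or.inl hw, h, h'⟩⟩
    · rcases hSdom v hv with h | ⟨a, ha, h⟩
      · exact Or.inl h
      · exact Or.inr ⟨a, ha, Or.inl h⟩
    · rcases hSdom s hs with h | ⟨a, ha, h⟩
      · exact Or.inr ⟨s, h, Or.inl hsv⟩
      · exact Or.inr ⟨a, ha, Or.inr ⟨s, Or.inr ⟨hSU hs, Or.inl hs⟩, h, hsv⟩⟩

/-- The allowed pieces: no infinite backward walk inside `X`, or no infinite forward walk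
inside `X`, or finite in-degrees inside `X`, or finite out-degrees inside `X`. -/
def Piece (G : Digraph V) (X : Set V) : Prop :=
  (¬ ∃ f : ℕ → V, (∀ n, f n ∈ X) ∧ ∀ n, G.Adj (f (n + 1)) (f n)) ∨
  (¬ ∃ f : ℕ → V, (∀ n, f n ∈ X) ∧ ∀ n, G.Adj (f n) (f (n + 1))) ∨
  (∀ v ∈ X, {u | u ∈ X ∧ G.Adj u v}.Finite) ∨
  (∀ v ∈ X, {u | u ∈ X ∧ G.Adj v u}.Finite)

lemma absorb_piece {G : Digraph V} (hG : ∀ v, ¬ G.Adj v v) {K Y : Set V}
    (hK : Piece G K) (hY : ∀ U ⊆ Y, Solv G U) : ∀ U ⊆ K ∪ Y, Solv G U := by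
  rcases hK with hK | hK | hK | hK
  · apply absorb_kernel _ hY
    intro U hU
    exact exists_kernel_wf (by rintro ⟨f, hf, h⟩; exact hK ⟨f, fun n => hU (hf n), h⟩)
  · intro U hU
    have := absorb_kernel (G := rv G) (K := K) (Y := Y) (fun U hU =>
      exists_kernel_wf (by rintro ⟨f, hf, h⟩; exact hK ⟨f, fun n => hU (hf n), h⟩))
      (fun U hU => solv_rv (hY U hU)) U hU
    exact solv_rv this
  · exact absorb_finite hG hK hY
  · intro U hU
    exact solv_rv (absorb_finite (G := rv G) hG hK (fun U hU => solv_rv (hY U hU)) U hU)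

lemma absorb_pieces {G : Digraph V} (hG : ∀ v, ¬ G.Adj v v) {Y : Set V}
    (hY : ∀ U ⊆ Y, Solv G U) : ∀ (k : ℕ) (X : Fin k → Set V), (∀ i, Piece G (X i)) →
    ∀ U ⊆ {v | v ∈ Y ∨ ∃ i, v ∈ X i}, Solv G U := by
  intro k
  induction k with
  | zero =>
    intro X _ U hU
    apply hY
    intro v hv
    rcases hU hv with h | ⟨i, _⟩
    · exact h
    · exact i.elim0
  | succ k ih =>
    intro X hX U hU
    refine absorb_piece hG (hX 0) (ih (fun i => X i.succ) fun i => hX _) U ?_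
    intro v hv
    rcases hU hv with h | ⟨i, hi⟩
    · exact Or.inr (Or.inl h)
    · rcases Fin.eq_zero_or_eq_succ i with rfl | ⟨j, rfl⟩
      · exact Or.inl hi
      · exact Or.inr (Or.inr ⟨j, hi⟩)

theorem main {G : Digraph V} (hG : ∀ v, ¬ G.Adj v v) {Y : Set V} (hP : PathCond G Y) {k : ℕ}
    (X : Fin k → Set V) (hX : ∀ i, Piece G (X i)) (hcov : ∀ v, v ∈ Y ∨ ∃ i, v ∈ X i) :
    ∃ W : Set V, (∃ A, QK G W A) ∧ ∃ B, QS G Wᶜ B := by
  obtain ⟨W0, W1, A, B, hW, hd, hA, hB⟩ := absorb_pieces hG (solv_of_pathCond hG hP) k X hX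
    Set.univ fun v _ => hcov v
  have : W1 = W0ᶜ := by
    ext v; constructor
    · intro h h'; exact Set.disjoint_left.1 hd h' h
    · intro h
      have : v ∈ W0 ∪ W1 := hW ▸ Set.mem_univ v
      exact this.resolve_left h
  subst this
  exact ⟨W0, ⟨A, hA⟩, B, hB⟩

end Pool.Agent.Lib.MP_9317e9_co.P4
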